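import Pool.Agent.MWK.Stmts

/-!
# MWK row STB: the depth stabilizes (MP_23468a_al)
-/

namespace Pool.Agent.MWK.H69

open Pool.Agent.MWK

open Classical in
theorem stb : StbStmt := by
  intro v
  by_contra hcon
  push Not at hcon
  have hcard : ∀ m, m ≤ (v.toFinset.filter (fun x => Dp m v x)).card := by
    intro m
    induction m with
    | zero => exact Nat.zero_le _
    | succ m ih =>
      obtain ⟨x, hx1, hx2⟩ := hcon m
      have hss : v.toFinset.filter (fun x => Dp m v x) ⊂
          v.toFinset.filter (fun x => Dp (m + 1) v x) := by
        rw [Finset.ssubset_iff_of_subset]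
        · refine ⟨x, ?_, ?_⟩
          · rw [Finset.mem_filter]
            exact ⟨List.mem_toFinset.2 hx1.mem, hx1⟩
          · rw [Finset.mem_filter]
            exact fun h => hx2 h.2
        · intro y hy
          rw [Finset.mem_filter] at hy ⊢
          exact ⟨hy.1, hy.2.mono⟩
      have := Finset.card_lt_card hss
      omega
  have h1 := hcard (v.toFinset.card + 1)
  have h2 := Finset.card_filter_le v.toFinset (fun x => Dp (v.toFinset.card + 1) v x)
  omega

end Pool.Agent.MWK.H69
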